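import Mathlib

/-!
# Countable countermodels for inquisitive first-order logic InqBQ

For every signature there is a formula of InqBQ that is not valid, although it is supported at
every state under every assignment in every model whose universe of worlds is countable or whose
domain of individuals is countable.
-/

namespace Pool.Agent.Results.MP_130315_lc.NoCountableCountermodel

universe u

/-- A signature: predicate symbols and function symbols with arities, where each function symbol
is rigid or non-rigid (constants are the function symbols of arity `0`). -/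
structure Signature where
  /-- the predicate symbols -/
  Pred : Type u
  /-- the arity of a predicate symbol -/
  predArity : Pred → ℕ
  /-- the function symbols -/
  Func : Type u
  /-- the arity of a function symbol -/
  funcArity : Func → ℕ
  /-- `Rigid f` says that the function symbol `f` is rigid -/
  Rigid : Func → Prop

/-- Terms over a signature; the variables are indexed by the natural numbers. -/
inductive Term (S : Signature.{u}) : Type u
  | var : ℕ → Term S
  | app : (f : S.Func) → (Fin (S.funcArity f) → Term S) → Term S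

/-- Formulas of InqBQ: atoms `P(t₁,…,tₙ)`, identities `t = t'`, falsum, conjunction, inquisitive
disjunction `ior`, implication, universal quantifier and inquisitive existential `iex`. -/
inductive Formula (S : Signature.{u}) : Type u
  | pred : (P : S.Pred) → (Fin (S.predArity P) → Term S) → Formula S
  | eq : Term S → Term S → Formula S
  | bot : Formula S
  | and : Formula S → Formula S → Formula S
  | ior : Formula S → Formula S → Formula S
  | imp : Formula S → Formula S → Formula S
  | all : ℕ → Formula S → Formula S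
  | iex : ℕ → Formula S → Formula S

/-- Models `M = (W, D, I, ∼)` of InqBQ: a non-empty set `W` of worlds, a non-empty domain `D` of
individuals, for each world an interpretation of the predicate and function symbols (rigid
function symbols are interpreted by the same map at every world), and for each world `w` an
equivalence relation `∼_w` on `D` which is a congruence for all the symbols at `w`. -/
structure Model (S : Signature.{u}) where
  /-- the universe (set of worlds) -/
  W : Type
  /-- the domain (set of individuals) -/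
  D : Type
  nonempty_W : Nonempty W
  nonempty_D : Nonempty D
  /-- interpretation of the predicate symbols at a world -/
  predI : (P : S.Pred) → W → (Fin (S.predArity P) → D) → Prop
  /-- interpretation of the function symbols at a world -/
  funcI : (f : S.Func) → W → (Fin (S.funcArity f) → D) → D
  rigid : ∀ f, S.Rigid f → ∀ w w', funcI f w = funcI f w'
  /-- the relation `∼_w` -/
  sim : W → D → D → Prop
  sim_equivalence : ∀ w, Equivalence (sim w)
  predI_congr : ∀ P w a b, (∀ i, sim w (a i) (b i)) → (predI P w a ↔ predI P w b)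
  funcI_congr : ∀ f w a b, (∀ i, sim w (a i) (b i)) → sim w (funcI f w a) (funcI f w b)

/-- The value `[t]^g_w` of a term at a world under an assignment. -/
def Model.val {S : Signature.{u}} (M : Model S) (g : ℕ → M.D) (w : M.W) : Term S → M.D
  | .var n => g n
  | .app f ts => M.funcI f w (fun i => M.val g w (ts i))

/-- The support relation `M, s ⊨_g φ`. -/
def Model.Supports {S : Signature.{u}} (M : Model S) : Set M.W → (ℕ → M.D) → Formula S → Prop
  | s, g, .pred P ts => ∀ w ∈ s, M.predI P w (fun i => M.val g w (ts i))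
  | s, g, .eq t t' => ∀ w ∈ s, M.sim w (M.val g w t) (M.val g w t')
  | s, _, .bot => s = ∅
  | s, g, .and φ ψ => M.Supports s g φ ∧ M.Supports s g ψ
  | s, g, .ior φ ψ => M.Supports s g φ ∨ M.Supports s g ψ
  | s, g, .imp φ ψ => ∀ t, t ⊆ s → M.Supports t g φ → M.Supports t g ψ
  | s, g, .all x φ => ∀ d : M.D, M.Supports s (Function.update g x d) φ
  | s, g, .iex x φ => ∃ d : M.D, M.Supports s (Function.update g x d) φ

/-- `φ` is supported at every state under every assignment in the model `M`. -/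
def Model.SupportedIn {S : Signature.{u}} (M : Model S) (φ : Formula S) : Prop :=
  ∀ (s : Set M.W) (g : ℕ → M.D), M.Supports s g φ

/-- `φ` is valid: it is supported at every model, state and assignment. -/
def Valid {S : Signature.{u}} (φ : Formula S) : Prop :=
  ∀ M : Model S, M.SupportedIn φ

/-! ### The formula -/

section formula

variable {S : Signature.{u}}

/-- negation -/
def fneg (φ : Formula S) : Formula S := .imp φ .bot

/-- `U(xₙ)`: the individual `xₙ` differs from `x₀`. -/
def fU (n : ℕ) : Formula S := fneg (.eq (.var n) (.var 0))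

/-- `xₙ` is of the first kind: `U(x₁) → U(xₙ)`. -/
def fK1 (n : ℕ) : Formula S := .imp (fU 1) (fU n)

/-- `xₙ` is of the second kind: `U(x₁) → ¬ U(xₙ)`. -/
def fK2 (n : ℕ) : Formula S := .imp (fU 1) (fneg (fU n))

def fA : Formula S := .all 2 (.ior (fK1 2) (fK2 2))

def fB : Formula S :=
  .all 2 (.all 3 (.ior (fK2 2) (.ior (fK2 3) (.ior (.imp (fU 2) (fU 3)) (.imp (fU 3) (fU 2))))))

def fC : Formula S :=
  .all 2 (.all 3 (.ior (fK1 2) (.ior (fK1 3)
    (.iex 4 (.and (fK2 4) (.and (.imp (fU 2) (fU 4)) (.imp (fU 3) (fU 4))))))))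

/-- all worlds of the state outside `U(x₁)` look alike -/
def fHom : Formula S :=
  .all 3 (.ior (.imp (fneg (fU 1)) (fU 3)) (.imp (fneg (fU 1)) (fneg (fU 3))))

def fD : Formula S := .imp fHom (.iex 2 (.and (fK2 2) (.imp (fneg (fU 1)) (fU 2))))

def fE : Formula S := .imp fHom (.iex 2 (fU 2))

def fConcl : Formula S := .ior (.iex 2 (fU 2)) (fneg (fU 1))

def fF : Formula S :=
  .imp (.all 2 (.iex 3 (.and (fK2 3) (.imp (.and (fneg (fU 1)) (fU 2)) (fU 3))))) fConcl

/-- The formula of the theorem. -/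
def phi : Formula S :=
  .imp (.and fA (.and fB (.and fC (.and fD (.and fE fF))))) fConcl

end formula

/-! ### Semantic reading of the formula -/

section semantics

variable {S : Signature.{u}} (M : Model S)

theorem supports_neg_of {g : ℕ → M.D} {φ : Formula S} {p : M.W → Prop}
    (h : ∀ t : Set M.W, M.Supports t g φ ↔ ∀ w ∈ t, p w) (t : Set M.W) :
    M.Supports t g (fneg φ) ↔ ∀ w ∈ t, ¬ p w := by
  constructor
  · intro H w hw hp
    have := H {w} (by simpa using hw) ((h _).2 (by simpa using hp))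
    simp [Model.Supports] at this
  · intro H t' ht' hp
    rw [h] at hp
    show t' = ∅
    by_contra hne
    obtain ⟨w, hw⟩ := Set.nonempty_iff_ne_empty.2 hne
    exact H w (ht' hw) (hp w hw)

theorem supports_imp_of {g : ℕ → M.D} {φ ψ : Formula S} {p q : M.W → Prop}
    (h : ∀ t : Set M.W, M.Supports t g φ ↔ ∀ w ∈ t, p w)
    (h' : ∀ t : Set M.W, M.Supports t g ψ ↔ ∀ w ∈ t, q w) (t : Set M.W) :
    M.Supports t g (.imp φ ψ) ↔ ∀ w ∈ t, p w → q w := by
  constructor
  · intro H w hw hp
    have := H {w} (by simpa using hw) ((h _).2 (by simpa using hp))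
    rw [h'] at this
    exact this w rfl
  · intro H t' ht' hp
    rw [h] at hp
    rw [h']
    exact fun w hw => H w (ht' hw) (hp w hw)

theorem supports_and_of {g : ℕ → M.D} {φ ψ : Formula S} {p q : M.W → Prop}
    (h : ∀ t : Set M.W, M.Supports t g φ ↔ ∀ w ∈ t, p w)
    (h' : ∀ t : Set M.W, M.Supports t g ψ ↔ ∀ w ∈ t, q w) (t : Set M.W) :
    M.Supports t g (.and φ ψ) ↔ ∀ w ∈ t, p w ∧ q w := by
  show (M.Supports t g φ ∧ M.Supports t g ψ) ↔ _
  rw [h, h']
  exact ⟨fun H w hw => ⟨H.1 w hw, H.2 w hw⟩, fun H => ⟨fun w hw => (H w hw).1, fun w hw => (H w hw).2⟩⟩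

theorem supports_U {g : ℕ → M.D} (n : ℕ) (t : Set M.W) :
    M.Supports t g (fU n) ↔ ∀ w ∈ t, ¬ M.sim w (g n) (g 0) :=
  supports_neg_of M (p := fun w => M.sim w (g n) (g 0)) (fun _ => Iff.rfl) t

theorem supports_nU {g : ℕ → M.D} (n : ℕ) (t : Set M.W) :
    M.Supports t g (fneg (fU n)) ↔ ∀ w ∈ t, ¬ ¬ M.sim w (g n) (g 0) :=
  supports_neg_of M (fun t => supports_U M n t) t

theorem supports_UU {g : ℕ → M.D} (m n : ℕ) (t : Set M.W) :
    M.Supports t g (.imp (fU m) (fU n)) ↔
      ∀ w ∈ t, ¬ M.sim w (g m) (g 0) → ¬ M.sim w (g n) (g 0) :=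
  supports_imp_of M (fun t => supports_U M m t) (fun t => supports_U M n t) t

theorem supports_K1 {g : ℕ → M.D} (n : ℕ) (t : Set M.W) :
    M.Supports t g (fK1 n) ↔ ∀ w ∈ t, ¬ M.sim w (g 1) (g 0) → ¬ M.sim w (g n) (g 0) :=
  supports_UU M 1 n t

theorem supports_K2 {g : ℕ → M.D} (n : ℕ) (t : Set M.W) :
    M.Supports t g (fK2 n) ↔ ∀ w ∈ t, ¬ M.sim w (g 1) (g 0) → ¬ ¬ M.sim w (g n) (g 0) :=
  supports_imp_of M (fun t => supports_U M 1 t) (fun t => supports_nU M n t) t

theorem supports_nRU {g : ℕ → M.D} (n : ℕ) (t : Set M.W) :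
    M.Supports t g (.imp (fneg (fU 1)) (fU n)) ↔
      ∀ w ∈ t, ¬ ¬ M.sim w (g 1) (g 0) → ¬ M.sim w (g n) (g 0) :=
  supports_imp_of M (fun t => supports_nU M 1 t) (fun t => supports_U M n t) t

theorem supports_nRnU {g : ℕ → M.D} (n : ℕ) (t : Set M.W) :
    M.Supports t g (.imp (fneg (fU 1)) (fneg (fU n))) ↔
      ∀ w ∈ t, ¬ ¬ M.sim w (g 1) (g 0) → ¬ ¬ M.sim w (g n) (g 0) :=
  supports_imp_of M (fun t => supports_nU M 1 t) (fun t => supports_nU M n t) t

theorem supports_tr {g : ℕ → M.D} (m n : ℕ) (t : Set M.W) :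
    M.Supports t g (.imp (.and (fneg (fU 1)) (fU m)) (fU n)) ↔
      ∀ w ∈ t, (¬ ¬ M.sim w (g 1) (g 0) ∧ ¬ M.sim w (g m) (g 0)) → ¬ M.sim w (g n) (g 0) :=
  supports_imp_of M
    (fun t => supports_and_of M (fun t => supports_nU M 1 t) (fun t => supports_U M m t) t)
    (fun t => supports_U M n t) t

end semantics

/-- The semantic conditions expressed by the antecedent of the formula, for an abstract relation
`A` between worlds and individuals. -/
structure Cond {W D : Type} (A : W → D → Prop) (r : D) (s : Set W) : Prop where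
  a : ∀ x, (∀ w ∈ s, A w r → A w x) ∨ (∀ w ∈ s, A w r → ¬ A w x)
  b : ∀ x y, (∀ w ∈ s, A w r → ¬ A w x) ∨ (∀ w ∈ s, A w r → ¬ A w y) ∨
    (∀ w ∈ s, A w x → A w y) ∨ (∀ w ∈ s, A w y → A w x)
  c : ∀ x y, (∀ w ∈ s, A w r → A w x) ∨ (∀ w ∈ s, A w r → A w y) ∨
    ∃ z, (∀ w ∈ s, A w r → ¬ A w z) ∧ (∀ w ∈ s, A w x → A w z) ∧ (∀ w ∈ s, A w y → A w z)
  d : ∀ t, t ⊆ s → (∀ y, (∀ w ∈ t, ¬ A w r → A w y) ∨ (∀ w ∈ t, ¬ A w r → ¬ A w y)) →
    ∃ x, (∀ w ∈ t, A w r → ¬ A w x) ∧ (∀ w ∈ t, ¬ A w r → A w x)
  e : ∀ t, t ⊆ s → (∀ y, (∀ w ∈ t, ¬ A w r → A w y) ∨ (∀ w ∈ t, ¬ A w r → ¬ A w y)) →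
    ∃ x, ∀ w ∈ t, A w x
  f : ∀ t, t ⊆ s → (∀ x, ∃ y, (∀ w ∈ t, A w r → ¬ A w y) ∧
      (∀ w ∈ t, (¬ A w r ∧ A w x) → A w y)) →
    (∃ x, ∀ w ∈ t, A w x) ∨ (∀ w ∈ t, ¬ A w r)

theorem supports_all_iff {S : Signature.{u}} (M : Model S) {s : Set M.W} {g : ℕ → M.D} {x : ℕ}
    {φ : Formula S} : M.Supports s g (.all x φ) ↔
      ∀ d : M.D, M.Supports s (Function.update g x d) φ := Iff.rfl

theorem supports_iex_iff {S : Signature.{u}} (M : Model S) {s : Set M.W} {g : ℕ → M.D} {x : ℕ}
    {φ : Formula S} : M.Supports s g (.iex x φ) ↔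
      ∃ d : M.D, M.Supports s (Function.update g x d) φ := Iff.rfl

theorem supports_ior_iff {S : Signature.{u}} (M : Model S) {s : Set M.W} {g : ℕ → M.D}
    {φ ψ : Formula S} : M.Supports s g (.ior φ ψ) ↔ (M.Supports s g φ ∨ M.Supports s g ψ) :=
  Iff.rfl

theorem supports_and_iff {S : Signature.{u}} (M : Model S) {s : Set M.W} {g : ℕ → M.D}
    {φ ψ : Formula S} : M.Supports s g (.and φ ψ) ↔ (M.Supports s g φ ∧ M.Supports s g ψ) :=
  Iff.rfl

theorem supports_imp_iff {S : Signature.{u}} (M : Model S) {s : Set M.W} {g : ℕ → M.D}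
    {φ ψ : Formula S} {p q : Set M.W → Prop} (h : ∀ t, M.Supports t g φ ↔ p t)
    (h' : ∀ t, M.Supports t g ψ ↔ q t) :
    M.Supports s g (.imp φ ψ) ↔ (∀ t, t ⊆ s → p t → q t) := by
  show (∀ t, t ⊆ s → M.Supports t g φ → M.Supports t g ψ) ↔ _
  simp only [h, h']

theorem supports_phi_iff {S : Signature.{u}} (M : Model S) (g : ℕ → M.D) (s₀ : Set M.W) :
    M.Supports s₀ g phi ↔ ∀ s, s ⊆ s₀ → Cond (fun w d => ¬ M.sim w d (g 0)) (g 1) s →
      ((∃ x, ∀ w ∈ s, ¬ M.sim w x (g 0)) ∨ (∀ w ∈ s, ¬ ¬ M.sim w (g 1) (g 0))) := by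
  have hconcl : ∀ t : Set M.W, M.Supports t g fConcl ↔
      ((∃ x, ∀ w ∈ t, ¬ M.sim w x (g 0)) ∨ (∀ w ∈ t, ¬ ¬ M.sim w (g 1) (g 0))) := by
    intro t
    simp only [fConcl, supports_ior_iff, supports_iex_iff, supports_nU, supports_U,
      Function.update_self, ne_eq, OfNat.zero_ne_ofNat, not_false_eq_true, Function.update_of_ne]
  have hhom : ∀ t : Set M.W, M.Supports t g fHom ↔
      (∀ y, (∀ w ∈ t, ¬ ¬ M.sim w (g 1) (g 0) → ¬ M.sim w y (g 0)) ∨
        (∀ w ∈ t, ¬ ¬ M.sim w (g 1) (g 0) → ¬ ¬ M.sim w y (g 0))) := by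
    intro t
    simp only [fHom, supports_all_iff, supports_ior_iff, supports_nRU, supports_nRnU]
    simp [Function.update]
  have hF : ∀ s, M.Supports s g fF ↔ ∀ t, t ⊆ s → (∀ x, ∃ y,
      (∀ w ∈ t, ¬ M.sim w (g 1) (g 0) → ¬ ¬ M.sim w y (g 0)) ∧
      (∀ w ∈ t, (¬ ¬ M.sim w (g 1) (g 0) ∧ ¬ M.sim w x (g 0)) → ¬ M.sim w y (g 0))) →
      (∃ x, ∀ w ∈ t, ¬ M.sim w x (g 0)) ∨ (∀ w ∈ t, ¬ ¬ M.sim w (g 1) (g 0)) := by
    intro s
    refine supports_imp_iff M (fun t => ?_) hconcl
    simp only [supports_all_iff, supports_iex_iff, supports_and_iff, supports_K2, supports_tr]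
    simp [Function.update]
  have hD : ∀ s, M.Supports s g fD ↔ ∀ t, t ⊆ s →
      (∀ y, (∀ w ∈ t, ¬ ¬ M.sim w (g 1) (g 0) → ¬ M.sim w y (g 0)) ∨
        (∀ w ∈ t, ¬ ¬ M.sim w (g 1) (g 0) → ¬ ¬ M.sim w y (g 0))) →
      ∃ x, (∀ w ∈ t, ¬ M.sim w (g 1) (g 0) → ¬ ¬ M.sim w x (g 0)) ∧
        (∀ w ∈ t, ¬ ¬ M.sim w (g 1) (g 0) → ¬ M.sim w x (g 0)) := by
    intro s
    refine supports_imp_iff M hhom (fun t => ?_)
    simp only [supports_iex_iff, supports_and_iff, supports_K2, supports_nRU]
    simp [Function.update]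
  have hE : ∀ s, M.Supports s g fE ↔ ∀ t, t ⊆ s →
      (∀ y, (∀ w ∈ t, ¬ ¬ M.sim w (g 1) (g 0) → ¬ M.sim w y (g 0)) ∨
        (∀ w ∈ t, ¬ ¬ M.sim w (g 1) (g 0) → ¬ ¬ M.sim w y (g 0))) →
      ∃ x, ∀ w ∈ t, ¬ M.sim w x (g 0) := by
    intro s
    refine supports_imp_iff M hhom (fun t => ?_)
    simp only [supports_iex_iff, supports_U]
    simp [Function.update]
  have hA : ∀ s, M.Supports s g fA ↔
      ∀ x, (∀ w ∈ s, ¬ M.sim w (g 1) (g 0) → ¬ M.sim w x (g 0)) ∨
        (∀ w ∈ s, ¬ M.sim w (g 1) (g 0) → ¬ ¬ M.sim w x (g 0)) := by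
    intro s
    simp only [fA, supports_all_iff, supports_ior_iff, supports_K1, supports_K2]
    simp [Function.update]
  have hB : ∀ s, M.Supports s g fB ↔
      ∀ x y, (∀ w ∈ s, ¬ M.sim w (g 1) (g 0) → ¬ ¬ M.sim w x (g 0)) ∨
        (∀ w ∈ s, ¬ M.sim w (g 1) (g 0) → ¬ ¬ M.sim w y (g 0)) ∨
        (∀ w ∈ s, ¬ M.sim w x (g 0) → ¬ M.sim w y (g 0)) ∨
        (∀ w ∈ s, ¬ M.sim w y (g 0) → ¬ M.sim w x (g 0)) := by
    intro s
    simp only [fB, supports_all_iff, supports_ior_iff, supports_UU, supports_K2]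
    simp [Function.update]
  have hC : ∀ s, M.Supports s g fC ↔
      ∀ x y, (∀ w ∈ s, ¬ M.sim w (g 1) (g 0) → ¬ M.sim w x (g 0)) ∨
        (∀ w ∈ s, ¬ M.sim w (g 1) (g 0) → ¬ M.sim w y (g 0)) ∨
        ∃ z, (∀ w ∈ s, ¬ M.sim w (g 1) (g 0) → ¬ ¬ M.sim w z (g 0)) ∧
        (∀ w ∈ s, ¬ M.sim w x (g 0) → ¬ M.sim w z (g 0)) ∧
        (∀ w ∈ s, ¬ M.sim w y (g 0) → ¬ M.sim w z (g 0)) := by
    intro s
    simp only [fC, supports_all_iff, supports_ior_iff, supports_iex_iff, supports_and_iff,
      supports_UU, supports_K2, supports_K1]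
    simp [Function.update]
  have hcond : ∀ s : Set M.W, M.Supports s g
      (.and fA (.and fB (.and fC (.and fD (.and fE fF))))) ↔
      Cond (fun w d => ¬ M.sim w d (g 0)) (g 1) s := by
    intro s
    constructor
    · rintro ⟨h1, h2, h3, h4, h5, h6⟩
      exact ⟨(hA s).1 h1, (hB s).1 h2, (hC s).1 h3, (hD s).1 h4, (hE s).1 h5, (hF s).1 h6⟩
    · rintro ⟨h1, h2, h3, h4, h5, h6⟩
      exact ⟨(hA s).2 h1, (hB s).2 h2, (hC s).2 h3, (hD s).2 h4, (hE s).2 h5, (hF s).2 h6⟩
  exact supports_imp_iff M hcond hconcl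

/-! ### The formula is supported when `W` or `D` is countable -/

theorem cond_supported {W D : Type} (A : W → D → Prop) (r : D) (s : Set W)
    (hc : Countable W ∨ Countable D) (h : Cond A r s) :
    (∃ x, ∀ w ∈ s, A w x) ∨ (∀ w ∈ s, ¬ A w r) := by
  classical
  by_contra hcon
  push Not at hcon
  obtain ⟨hU, v, hv, hvr⟩ := hcon
  -- individuals of the first kind
  let K : Set D := {x | ∀ w ∈ s, A w r → A w x}
  have hrK : r ∈ K := fun w _ hw => hw
  -- the first kind is a chain
  have chain : ∀ x ∈ K, ∀ y ∈ K, (∀ w ∈ s, A w x → A w y) ∨ (∀ w ∈ s, A w y → A w x) := by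
    intro x hx y hy
    rcases h.b x y with h1 | h1 | h1
    · exact absurd (hx v hv hvr) (h1 v hv hvr)
    · exact absurd (hy v hv hvr) (h1 v hv hvr)
    · exact h1
  -- the homogeneity antecedent
  have hom : ∀ w₀ ∈ s, ¬ A w₀ r → ∀ y, (∀ w ∈ {w | w ∈ s ∧ A w r} ∪ {w₀}, ¬ A w r → A w y) ∨
      (∀ w ∈ {w | w ∈ s ∧ A w r} ∪ {w₀}, ¬ A w r → ¬ A w y) := by
    intro w₀ _ _ y
    by_cases hy : A w₀ y
    · left
      rintro w (hw | hw) hwr
      · exact absurd hw.2 hwr
      · rw [Set.mem_singleton_iff.1 hw]; exact hy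
    · right
      rintro w (hw | hw) hwr
      · exact absurd hw.2 hwr
      · rw [Set.mem_singleton_iff.1 hw]; exact hy
  have hsub : ∀ w₀ ∈ s, {w | w ∈ s ∧ A w r} ∪ {w₀} ⊆ s := by
    rintro w₀ hw₀ w (hw | hw)
    · exact hw.1
    · rw [Set.mem_singleton_iff.1 hw]; exact hw₀
  have cov1 : ∀ w₀ ∈ s, ¬ A w₀ r → ∃ x ∈ K, A w₀ x := by
    intro w₀ hw₀ hr
    obtain ⟨x, hx⟩ := h.e _ (hsub w₀ hw₀) (hom w₀ hw₀ hr)
    exact ⟨x, fun w hw hwr => hx w (Or.inl ⟨hw, hwr⟩), hx w₀ (Or.inr rfl)⟩
  have cov2 : ∀ w₀ ∈ s, ¬ A w₀ r → ∃ x, (∀ w ∈ s, A w r → ¬ A w x) ∧ A w₀ x := by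
    intro w₀ hw₀ hr
    obtain ⟨x, hx, hx'⟩ := h.d _ (hsub w₀ hw₀) (hom w₀ hw₀ hr)
    exact ⟨x, fun w hw hwr => hx w (Or.inl ⟨hw, hwr⟩) hwr, hx' w₀ (Or.inr rfl) hr⟩
  -- a countable cofinal family of individuals of the first kind
  obtain ⟨e, heK, hecof⟩ : ∃ e : ℕ → D, (∀ n, e n ∈ K) ∧
      ∀ x ∈ K, ∃ n, ∀ w ∈ s, A w x → A w (e n) := by
    rcases hc with hc | hc
    · -- worlds outside `r`
      have hne : {w | w ∈ s ∧ ¬ A w r}.Nonempty := by
        obtain ⟨w, hw, hwr⟩ := hU r
        exact ⟨w, hw, hwr⟩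
      obtain ⟨f, hf⟩ := (Set.to_countable {w | w ∈ s ∧ ¬ A w r}).exists_eq_range hne
      have hf' : ∀ n, f n ∈ s ∧ ¬ A (f n) r := by
        intro n
        have : f n ∈ {w | w ∈ s ∧ ¬ A w r} := by rw [hf]; exact ⟨n, rfl⟩
        exact this
      choose e he he' using fun n => cov1 (f n) (hf' n).1 (hf' n).2
      refine ⟨e, he, fun x hx => ?_⟩
      obtain ⟨w, hw, hwx⟩ := hU x
      have hwr : ¬ A w r := fun hwr => hwx (hx w hw hwr)
      have : w ∈ Set.range f := by rw [← hf]; exact ⟨hw, hwr⟩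
      obtain ⟨n, rfl⟩ := this
      refine ⟨n, ?_⟩
      rcases chain x hx (e n) (he n) with h1 | h1
      · exact h1
      · exact absurd (h1 _ hw (he' n)) hwx
    · obtain ⟨e, he⟩ := (Set.to_countable K).exists_eq_range ⟨r, hrK⟩
      refine ⟨e, fun n => by rw [he]; exact ⟨n, rfl⟩, fun x hx => ?_⟩
      rw [he] at hx
      obtain ⟨n, rfl⟩ := hx
      exact ⟨n, fun w _ hw => hw⟩
  -- finitely many members of the chain are below one of them
  have hbd : ∀ n : ℕ, ∃ x ∈ K, ∀ i ≤ n, ∀ w ∈ s, A w (e i) → A w x := by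
    intro n
    induction n with
    | zero => exact ⟨e 0, heK 0, fun i hi w _ hw => by rwa [Nat.le_zero.1 hi] at hw⟩
    | succ n ih =>
      obtain ⟨x, hx, hx'⟩ := ih
      rcases chain x hx (e (n + 1)) (heK _) with h1 | h1
      · refine ⟨e (n + 1), heK _, fun i hi w hw hwi => ?_⟩
        rcases Nat.lt_or_ge i (n + 1) with h2 | h2
        · exact h1 w hw (hx' i (Nat.lt_succ_iff.1 h2) w hw hwi)
        · have : i = n + 1 := le_antisymm hi h2
          rwa [this] at hwi
      · refine ⟨x, hx, fun i hi w hw hwi => ?_⟩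
        rcases Nat.lt_or_ge i (n + 1) with h2 | h2
        · exact hx' i (Nat.lt_succ_iff.1 h2) w hw hwi
        · have : i = n + 1 := le_antisymm hi h2
          rw [this] at hwi
          exact h1 w hw hwi
  -- worlds escaping the first members of the cofinal family
  have hesc : ∀ n : ℕ, ∃ w ∈ s, ∀ i ≤ n, ¬ A w (e i) := by
    intro n
    obtain ⟨x, -, hx'⟩ := hbd n
    obtain ⟨w, hw, hwx⟩ := hU x
    exact ⟨w, hw, fun i hi hwi => hwx (hx' i hi w hw hwi)⟩
  choose p hps hpe using hesc
  have hpr : ∀ n, ¬ A (p n) r := fun n hr => hpe n 0 (Nat.zero_le _) (heK 0 _ (hps n) hr)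
  -- finitely many of the worlds are covered by an individual of the second kind
  have hfin : ∀ n : ℕ, ∃ y, (∀ w ∈ s, A w r → ¬ A w y) ∧ ∀ i < n, A (p i) y := by
    intro n
    induction n with
    | zero =>
      obtain ⟨y, hy, -⟩ := cov2 (p 0) (hps 0) (hpr 0)
      exact ⟨y, hy, fun i hi => absurd hi (Nat.not_lt_zero _)⟩
    | succ n ih =>
      obtain ⟨y, hy, hy'⟩ := ih
      obtain ⟨z, hz, hz'⟩ := cov2 (p n) (hps n) (hpr n)
      rcases h.c y z with h1 | h1 | ⟨x, hx, hyx, hzx⟩
      · exact absurd (h1 v hv hvr) (hy v hv hvr)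
      · exact absurd (h1 v hv hvr) (hz v hv hvr)
      · refine ⟨x, hx, fun i hi => ?_⟩
        rcases Nat.lt_or_ge i n with h2 | h2
        · exact hyx _ (hps i) (hy' i h2)
        · have : i = n := le_antisymm (Nat.lt_succ_iff.1 hi) h2
          rw [this]
          exact hzx _ (hps n) hz'
  -- the state witnessing the failure of the last condition
  have hts : {w | w ∈ s ∧ A w r} ∪ Set.range p ⊆ s := by
    rintro w (hw | ⟨n, rfl⟩)
    · exact hw.1
    · exact hps n
  have hant : ∀ x, ∃ y, (∀ w ∈ {w | w ∈ s ∧ A w r} ∪ Set.range p, A w r → ¬ A w y) ∧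
      (∀ w ∈ {w | w ∈ s ∧ A w r} ∪ Set.range p, (¬ A w r ∧ A w x) → A w y) := by
    intro x
    rcases h.a x with hx | hx
    · obtain ⟨n, hn⟩ := hecof x hx
      obtain ⟨y, hy, hy'⟩ := hfin n
      refine ⟨y, fun w hw hwr => hy w (hts hw) hwr, ?_⟩
      rintro w (hw | ⟨i, rfl⟩) ⟨hwr, hwx⟩
      · exact absurd hw.2 hwr
      · apply hy' i
        by_contra hi
        exact hpe i n (not_lt.1 hi) (hn _ (hps i) hwx)
    · exact ⟨x, fun w hw hwr => hx w (hts hw) hwr, fun w _ hw => hw.2⟩
  rcases h.f _ hts hant with ⟨x, hx⟩ | hx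
  · have hxK : x ∈ K := fun w hw hwr => hx w (Or.inl ⟨hw, hwr⟩)
    obtain ⟨n, hn⟩ := hecof x hxK
    exact hpe n n le_rfl (hn _ (hps n) (hx _ (Or.inr ⟨n, rfl⟩)))
  · exact hx v (Or.inl ⟨hv, hvr⟩) hvr

/-! ### A countermodel -/

/-- An uncountable regular well-order, used only through the fact that every countable subset has
a strict upper bound. -/
abbrev Om : Type := (Ordinal.omega.{0} 1).ToType

theorem exists_strict_bound (C : Set Om) (hC : C.Countable) : ∃ a : Om, ∀ b ∈ C, b < a := by
  by_contra hcon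
  push Not at hcon
  have hcof : IsCofinal C := fun a => by
    obtain ⟨b, hb, hab⟩ := hcon a
    exact ⟨b, hb, hab⟩
  have h1 := Order.cof_le hcof
  have h2 : Order.cof Om = Cardinal.aleph 1 := by
    rw [Ordinal.cof_toType, Cardinal.cof_omega_one]
  rw [h2] at h1
  have h3 : Cardinal.mk C ≤ Cardinal.aleph0 := Cardinal.le_aleph0_iff_set_countable.2 hC
  exact absurd (h1.trans h3) (not_le.2 Cardinal.aleph0_lt_aleph_one)

/-- The individuals of the countermodel: `inl none` is the parameter marking the special world,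
`inl (some a)` is the initial segment below `a` together with the special world, and `inr F` is
a finite set of ordinary worlds. -/
abbrev CD : Type := Option Om ⊕ Finset Om

/-- membership of a world in an individual -/
def CA : Option Om → CD → Prop
  | none, .inl _ => True
  | some _, .inl none => False
  | some w, .inl (some a) => w < a
  | none, .inr _ => False
  | some w, .inr F => w ∈ F

theorem CA_cond : Cond CA (Sum.inl none) Set.univ := by
  classical
  constructor
  · -- a
    rintro (x | F)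
    · left; rintro (_ | w) _ hw
      · trivial
      · exact hw.elim
    · right; rintro (_ | w) _ hw
      · exact fun h => h
      · exact hw.elim
  · -- b
    rintro (x | F) y
    · rcases y with y | G
      · right; right
        rcases x with _ | a
        · left; rintro (_ | w) _ hw
          · trivial
          · exact hw.elim
        · rcases y with _ | b
          · right; rintro (_ | w) _ hw
            · trivial
            · exact hw.elim
          · rcases le_total a b with hab | hab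
            · left; rintro (_ | w) _ hw
              · trivial
              · exact lt_of_lt_of_le hw hab
            · right; rintro (_ | w) _ hw
              · trivial
              · exact lt_of_lt_of_le hw hab
      · right; left; rintro (_ | w) _ hw
        · exact fun h => h
        · exact hw.elim
    · left; rintro (_ | w) _ hw
      · exact fun h => h
      · exact hw.elim
  · -- c
    rintro (x | F) y
    · left; rintro (_ | w) _ hw
      · trivial
      · exact hw.elim
    · rcases y with y | G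
      · right; left; rintro (_ | w) _ hw
        · trivial
        · exact hw.elim
      · right; right
        refine ⟨Sum.inr (F ∪ G), ?_, ?_, ?_⟩
        · rintro (_ | w) _ hw
          · exact fun h => h
          · exact hw.elim
        · rintro (_ | w) _ hw
          · exact hw
          · exact Finset.mem_union_left _ hw
        · rintro (_ | w) _ hw
          · exact hw
          · exact Finset.mem_union_right _ hw
  · -- d
    intro t _ ht
    by_cases hne : ∃ w : Om, some w ∈ t
    · obtain ⟨w₀, hw₀⟩ := hne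
      rcases ht (Sum.inr {w₀}) with h1 | h1
      · refine ⟨Sum.inr {w₀}, ?_, h1⟩
        rintro (_ | w) _ hw
        · exact fun h => h
        · exact hw.elim
      · exact absurd (Finset.mem_singleton_self w₀) (h1 (some w₀) hw₀ (fun h => h))
    · refine ⟨Sum.inr ∅, ?_, ?_⟩
      · rintro (_ | w) _ hw
        · exact fun h => h
        · exact hw.elim
      · rintro (_ | w) hw hwr
        · exact absurd trivial hwr
        · exact absurd ⟨w, hw⟩ hne
  · -- e
    intro t _ ht
    by_cases hne : ∃ w : Om, some w ∈ t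
    · obtain ⟨w₀, hw₀⟩ := hne
      rcases ht (Sum.inr {w₀}) with h1 | h1
      · obtain ⟨a, ha⟩ := exists_strict_bound {w₀} (Set.countable_singleton _)
        refine ⟨Sum.inl (some a), ?_⟩
        rintro (_ | w) hw
        · trivial
        · have := h1 (some w) hw (fun h => h)
          have hww : w = w₀ := Finset.mem_singleton.1 this
          rw [hww]
          exact ha w₀ rfl
      · exact absurd (Finset.mem_singleton_self w₀) (h1 (some w₀) hw₀ (fun h => h))
    · refine ⟨Sum.inl none, ?_⟩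
      rintro (_ | w) hw
      · trivial
      · exact absurd ⟨w, hw⟩ hne
  · -- f
    intro t _ ht
    by_cases hv : (none : Option Om) ∈ t
    · left
      -- every trace on a proper initial segment is finite
      have hfin : ∀ a : Om, {w : Om | some w ∈ t ∧ w < a}.Finite := by
        intro a
        obtain ⟨y, hy, hy'⟩ := ht (Sum.inl (some a))
        rcases y with y | F
        · exact absurd trivial (hy none hv trivial)
        · refine F.finite_toSet.subset ?_
          rintro w ⟨hw, hwa⟩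
          exact hy' (some w) hw ⟨fun h => h, hwa⟩
      have hT : {w : Om | some w ∈ t}.Finite := by
        by_contra hinf
        have f := Set.Infinite.natEmbedding _ hinf
        obtain ⟨a, ha⟩ := exists_strict_bound (Set.range fun n => (f n : Om))
          (Set.countable_range _)
        have hsub : (Set.range fun n => (f n : Om)) ⊆ {w : Om | some w ∈ t ∧ w < a} := by
          rintro _ ⟨n, rfl⟩
          exact ⟨(f n).2, ha _ ⟨n, rfl⟩⟩
        exact Set.infinite_range_of_injective
          (Subtype.val_injective.comp f.injective) ((hfin a).subset hsub)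
      obtain ⟨a, ha⟩ := exists_strict_bound _ hT.countable
      refine ⟨Sum.inl (some a), ?_⟩
      rintro (_ | w) hw
      · trivial
      · exact ha w hw
    · right
      rintro (_ | w) hw
      · exact absurd hw hv
      · exact fun h => h

/-- The countermodel, for an arbitrary signature. -/
def CM (S : Signature.{u}) : Model S where
  W := Option Om
  D := CD
  nonempty_W := ⟨none⟩
  nonempty_D := ⟨Sum.inl none⟩
  predI _ _ _ := True
  funcI _ _ _ := Sum.inl none
  rigid _ _ _ _ := rfl
  sim w x y := CA w x ↔ CA w y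
  sim_equivalence w := ⟨fun _ => Iff.rfl, fun h => h.symm, fun h h' => h.trans h'⟩
  predI_congr _ _ _ _ _ := Iff.rfl
  funcI_congr _ _ _ _ _ := Iff.rfl

theorem not_valid_phi (S : Signature.{u}) : ¬ Valid (phi : Formula S) := by
  intro h
  let g : ℕ → CD := fun n => if n = 0 then Sum.inr ∅ else Sum.inl none
  have h1 := (supports_phi_iff (CM S) g Set.univ).1 (h (CM S) Set.univ g) Set.univ subset_rfl
  have hA : (fun (w : (CM S).W) (d : (CM S).D) => ¬ (CM S).sim w d (g 0)) = CA := by
    funext w d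
    show (¬ (CA w d ↔ CA w (Sum.inr ∅))) = CA w d
    have : ¬ CA w (Sum.inr ∅) := by
      rcases w with _ | w
      · exact fun h => h
      · exact fun h => absurd h (Finset.notMem_empty _)
    simp [this]
  have hA' : ∀ (w : (CM S).W) (d : (CM S).D), (¬ (CM S).sim w d (g 0)) ↔ CA w d := by
    intro w d
    exact Iff.of_eq (congrFun (congrFun hA w) d)
  have hg1 : g 1 = Sum.inl none := by simp [g]
  rw [hA] at h1
  rw [hg1] at h1
  rcases h1 CA_cond with ⟨x, hx⟩ | hx
  · simp only [hA'] at hx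
    rcases x with x | F
    · rcases x with _ | a
      · obtain ⟨a, -⟩ := exists_strict_bound ∅ Set.countable_empty
        exact hx (some a) trivial
      · exact lt_irrefl a (hx (some a) trivial)
    · exact hx none trivial
  · exact hx none trivial ((hA' none (Sum.inl none)).2 trivial)

/-- **The result.** For every signature there is a formula of InqBQ which is not valid, although
it is supported at every state under every assignment in every model whose universe `W` or whose
domain `D` is countable. -/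
theorem result (S : Signature.{u}) :
    ∃ φ : Formula S, ¬ Valid φ ∧
      ∀ M : Model S, (Countable M.W ∨ Countable M.D) → M.SupportedIn φ := by
  refine ⟨phi, not_valid_phi S, fun M hM s g => ?_⟩
  rw [supports_phi_iff]
  intro s' _ hs'
  exact cond_supported _ _ _ hM hs'

end Pool.Agent.Results.MP_130315_lc.NoCountableCountermodel
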